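import Pool.Agent.V8H91.ML.Mom

set_option autoImplicit false
set_option linter.unusedSectionVars false

/-!
# The monodromy-weight conjecture in two cohomology theories
-/

open Module

namespace Pool.Agent.V8H91.ML

universe u v w

open Pool.Agent.Y143 Pool.Agent.Y163.MW Pool.Agent.Y163.MX

variable {Ω : Type w} [Field Ω] [CharZero Ω] {R R' : Coh.{v, w} Ω} {q : ℕ}

/-- The multiplicities of the eigenvalues of Frobenius on `H^j`, `j ≤ k`, `j ≠ m`, are the same. -/
def SameOutside (R R' : Coh.{v, w} Ω) (k m : ℕ) : Prop :=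
  ∀ j, j ≤ k → j ≠ m → ∀ α : Ω, mult R j α = mult R' j α

lemma alt_cancel {k m : ℕ} (hm : m ≤ k) {a a' : ℕ → ℤ}
    (h : ∑ j ∈ Finset.range (k + 1), (-1 : ℤ) ^ j * a j =
      ∑ j ∈ Finset.range (k + 1), (-1 : ℤ) ^ j * a' j)
    (ho : ∀ j, j ≤ k → j ≠ m → a j = a' j) : a m = a' m := by
  have hmem : m ∈ Finset.range (k + 1) := Finset.mem_range.2 (by omega)
  rw [← Finset.add_sum_erase _ _ hmem, ← Finset.add_sum_erase _ _ hmem] at h
  have h1 : ∑ j ∈ (Finset.range (k + 1)).erase m, (-1 : ℤ) ^ j * a j =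
      ∑ j ∈ (Finset.range (k + 1)).erase m, (-1 : ℤ) ^ j * a' j := by
    refine Finset.sum_congr rfl fun j hj => ?_
    have h2 := Finset.mem_erase.1 hj
    rw [ho j (by have := Finset.mem_range.1 h2.2; omega) h2.1]
  rw [h1] at h
  have h3 : (-1 : ℤ) ^ m * a m = (-1 : ℤ) ^ m * a' m := by linarith
  exact mul_left_cancel₀ (pow_ne_zero m (by norm_num)) h3

/-- The multiplicities in the degree `m`. -/
lemma mult_of_alt {k m : ℕ} (hm : m ≤ k) (h : SameAlternating R R' k)
    (ho : SameOutside R R' k m) (α : Ω) : mult R m α = mult R' m α := by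
  have h1 := alt_cancel (a := fun j => (mult R j α : ℤ)) (a' := fun j => (mult R' j α : ℤ)) hm (h α)
    fun j hj hjm => congrArg Nat.cast (ho j hj hjm α)
  exact_mod_cast h1

lemma charP_congr {m : ℕ} (h : ∀ α : Ω, mult R m α = mult R' m α) : charP R m = charP R' m := by
  unfold charP
  exact finprod_congr fun α => by rw [h α]

lemma newton_congr {m : ℕ} (h : ∀ α : Ω, mult R m α = mult R' m α) {val : Ω → ℝ} {hdg : ℕ → ℕ}
    (hN : NewtonAboveHodge R' val m hdg) : NewtonAboveHodge R val m hdg := by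
  obtain ⟨n, α, a, h1, h2, h3, h4, h5, h6⟩ := hN
  exact ⟨n, α, a, fun β => (h1 β).trans (h β).symm, h2, h3, h4, h5, h6⟩

section

variable [IsAlgClosed Ω]

/-- If the conjecture is true for one theory then it is true for the other one if and only if the
rank moments are equal. -/
theorem transfer (hq : 1 < q) (hR : R.IsCoh q) (hR' : R'.IsCoh q) {m : ℕ}
    (h : R.weightMoment q m = R'.weightMoment q m) (hmw : R'.MWPure q m) :
    R.rankMoment m ≤ R'.rankMoment m ∧
      (R.MWPure q m ↔ R.rankMoment m = R'.rankMoment m) := by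
  obtain ⟨h1, h2⟩ := Coh.moment_deg hq hR m
  obtain ⟨-, h3⟩ := Coh.moment_deg hq hR' m
  rw [h3.2 hmw, ← h, ← h2]
  exact ⟨h1, Iff.rfl⟩

/-- The alternating sum of the rank moments. -/
noncomputable def altRank (R : Coh.{v, w} Ω) (k : ℕ) : ℤ :=
  ∑ j ∈ Finset.range (k + 1), (-1 : ℤ) ^ j * R.rankMoment j

/-- If the conjecture is true outside of the degree `m`, for both theories. -/
theorem transfer_alt (hq : 1 < q) (hR : R.IsCoh q) (hR' : R'.IsCoh q) {k m : ℕ} (hm : m ≤ k)
    (hb : ∀ j ≤ k, finrank Ω (R.gr j) = finrank Ω (R'.gr j)) (h : SameAlternating R R' k)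
    (ho : ∀ j, j ≤ k → j ≠ m → R.MWPure q j) (ho' : ∀ j, j ≤ k → j ≠ m → R'.MWPure q j)
    (hmw : R'.MWPure q m) :
    (-1) ^ m * altRank R k ≤ (-1) ^ m * altRank R' k ∧
      (R.MWPure q m ↔ altRank R k = altRank R' k) := by
  have h1 := alt_weightMoment hq hR hR' hb h
  have h2 : ∀ j, j ≤ k → R'.weightMoment q j = R'.rankMoment j := fun j hj => by
    by_cases hjm : j = m
    · rw [hjm]
      exact (((Coh.moment_deg hq hR' m).2).2 hmw).symm
    · exact (((Coh.moment_deg hq hR' j).2).2 (ho' j hj hjm)).symm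
  have h3 : ∀ j, j ≤ k → j ≠ m → R.weightMoment q j = R.rankMoment j := fun j hj hjm =>
    (((Coh.moment_deg hq hR j).2).2 (ho j hj hjm)).symm
  have h4 : altRank R' k = ∑ j ∈ Finset.range (k + 1), (-1 : ℤ) ^ j * R.weightMoment q j := by
    rw [h1]
    exact Finset.sum_congr rfl fun j hj => by
      rw [h2 j (by have := Finset.mem_range.1 hj; omega)]
  have hmem : m ∈ Finset.range (k + 1) := Finset.mem_range.2 (by omega)
  have h5 : altRank R' k - altRank R k =
      (-1 : ℤ) ^ m * (R.weightMoment q m - R.rankMoment m) := by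
    rw [h4]
    unfold altRank
    rw [← Finset.sum_sub_distrib, ← Finset.add_sum_erase _ _ hmem]
    have h6 : ∑ j ∈ (Finset.range (k + 1)).erase m, ((-1 : ℤ) ^ j * R.weightMoment q j -
        (-1 : ℤ) ^ j * R.rankMoment j) = 0 := by
      refine Finset.sum_eq_zero fun j hj => ?_
      have h2 := Finset.mem_erase.1 hj
      rw [h3 j (by have := Finset.mem_range.1 h2.2; omega) h2.1, sub_self]
    rw [h6, add_zero]
    ring
  have hs : ((-1 : ℤ) ^ m) * ((-1 : ℤ) ^ m) = 1 := by
    rw [← mul_pow]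
    norm_num
  obtain ⟨h7, h8⟩ := Coh.moment_deg hq hR m
  have h9 : (-1 : ℤ) ^ m * altRank R' k - (-1 : ℤ) ^ m * altRank R k =
      R.weightMoment q m - R.rankMoment m := by
    rw [← mul_sub, h5, ← mul_assoc, hs, one_mul]
  refine ⟨by linarith, ?_⟩
  rw [← h8]
  constructor
  · intro h10
    rw [h10, sub_self, mul_zero, sub_eq_zero] at h5
    exact h5.symm
  · intro h10
    rw [h10, sub_self] at h9
    linarith

end

end Pool.Agent.V8H91.ML
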