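import Pool.Agent.Y163.MX.Fin

set_option autoImplicit false
set_option linter.unusedSectionVars false

/-!
# The second moments of the weights and the traces of Frobenius
-/

open Module

namespace Pool.Agent.V8H91.ML

universe u v w

open Pool.Agent.Y143 Pool.Agent.Y163.MW Pool.Agent.Y163.MX

variable {Ω : Type w} [Field Ω] [CharZero Ω] [IsAlgClosed Ω] {R R' : Coh.{v, w} Ω} {q : ℕ}

/-- Symmetry of the weights on `H^m`. -/
lemma finrank_exc_neg (hq : 1 < q) (hR : R.IsCoh q) (m : ℕ) (c : ℤ) :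
    finrank Ω (R.exc q m c) = finrank Ω (R.exc q m (-c)) := by
  have := hR.finite
  have key : ∀ c : ℤ, finrank Ω (R.exc q m c) ≤ finrank Ω (R.exc q m (-c)) := by
    intro c
    obtain ⟨B, hB⟩ := hR.dual
    have hB0 : ∀ x, (∀ y, B x y = 0) → x = 0 := hB.nondeg
    have hB1 : ∀ m m' x y, x ∈ R.gr m → y ∈ R.gr m' → m ≠ m' → B x y = 0 := hB.orth
    have hB2 : ∀ m x y, x ∈ R.gr m → y ∈ R.gr m → B (R.F x) (R.F y) = (q : Ω) ^ m * B x y :=
      hB.frob
    let φ : R.exc q m c →ₗ[Ω] Module.Dual Ω (R.exc q m (-c)) :=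
      { toFun := fun x => (B x).comp (R.exc q m (-c)).subtype
        map_add' := fun x y => by ext z; simp
        map_smul' := fun a x => by ext z; simp }
    have hφ : Function.Injective φ := by
      rw [← LinearMap.ker_eq_bot, LinearMap.ker_eq_bot']
      intro x hx
      apply Subtype.ext
      apply hB0
      have h1 : ∀ m' c', ∀ y ∈ R.exc q m' c', B x y = 0 := by
        intro m' c' y hy
        by_cases hm : m' = m
        · subst hm
          by_cases hc : c' = -c
          · subst hc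
            exact DFunLike.congr_fun hx ⟨y, hy⟩
          · have h2 : R.exc q m' c ≤ LinearMap.ker (B.flip y) := by
              refine iSup₂_le fun α hα z hz => ?_
              rw [LinearMap.mem_ker, LinearMap.flip_apply]
              have h4 : R.exc q m' c' ≤ LinearMap.ker (B z) := by
                refine iSup₂_le fun β hβ t ht => ?_
                rw [LinearMap.mem_ker]
                refine gen_orth (hR.F_gr m') (hB2 m') ?_ (Submodule.mem_inf.1 hz).1
                  (Submodule.mem_inf.1 ht).1 (Submodule.mem_inf.1 hz).2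
                  (Submodule.mem_inf.1 ht).2
                intro h5
                have h6 := weil_mul (by omega) hα hβ
                rw [h5] at h6
                have h7 := weil_unique hq h6 (weil_natPow (by omega) m')
                omega
              exact LinearMap.mem_ker.1 (h4 hy)
            exact LinearMap.mem_ker.1 (h2 x.2)
        · exact hB1 m m' x y (Coh.exc_le m c x.2) (Coh.exc_le m' c' hy) (Ne.symm hm)
      intro y
      have h8 : (⊤ : Submodule Ω R.V) ≤ LinearMap.ker (B x) := by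
        rw [← hR.isInternal.submodule_iSup_eq_top]
        refine iSup_le fun m' => ?_
        rw [← Coh.iSup_exc hR m']
        exact iSup_le fun c' y hy => LinearMap.mem_ker.2 (h1 m' c' y hy)
      exact LinearMap.mem_ker.1 (h8 (Submodule.mem_top))
    have := LinearMap.finrank_le_finrank_of_injective hφ
    rwa [Subspace.dual_finrank_eq] at this
  apply le_antisymm (key c)
  have := key (-c)
  rwa [neg_neg] at this

lemma finsum_odd {φ : ℤ → ℤ} (h : ∀ c, φ (-c) = - φ c) : ∑ᶠ c : ℤ, φ c = 0 := by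
  have h1 : ∑ᶠ c : ℤ, φ (-c) = ∑ᶠ c : ℤ, φ c := finsum_comp_equiv (Equiv.neg ℤ)
  have h2 : ∑ᶠ c : ℤ, φ (-c) = - ∑ᶠ c : ℤ, φ c := by
    rw [finsum_congr h, finsum_neg_distrib]
  omega

/-- The sum of the squares of the weights. -/
noncomputable def sqW (R : Coh.{v, w} Ω) (q m : ℕ) : ℝ :=
  ∑ᶠ α : Ω, ((Coh.wtf q α : ℝ) ^ 2) * (mult R m α : ℝ)

/-- The weight moment in terms of the squares of the weights and the Betti number. -/
lemma weightMoment_sqW (hq : 1 < q) (hR : R.IsCoh q) (m : ℕ) :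
    (R.weightMoment q m : ℝ) = sqW R q m - (m : ℝ) ^ 2 * (finrank Ω (R.gr m) : ℝ) := by
  classical
  obtain ⟨I, _, b, p, hb⟩ := exists_basis hR
  have h1 : ∑ i : {i // (p i).1 = m}, (Coh.wtf q (p i.1).2 - (m : ℤ)) = 0 := by
    rw [← finsum_card (fun i : {i // (p i).1 = m} => Coh.wtf q (p i.1).2 - (m : ℤ)) (fun c => c)]
    apply finsum_odd
    intro c
    have hcard : ∀ c : ℤ, (Nat.card {i : {i // (p i).1 = m} // Coh.wtf q (p i.1).2 - (m : ℤ) = c}) =
        finrank Ω (R.exc q m c) := by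
      intro c
      rw [finrank_exc hq hR hb m c]
      symm
      refine Nat.card_congr ?_
      refine (Equiv.subtypeEquivRight fun i => ?_).trans
        (Equiv.subtypeSubtypeEquivSubtypeInter (fun i => (p i).1 = m)
          (fun i => Coh.wtf q (p i).2 - (m : ℤ) = c)).symm
      rw [Prod.ext_iff]
      constructor
      · rintro ⟨h1, h2⟩
        simp only at h1 h2
        exact ⟨h1, by rw [← h1]; exact h2⟩
      · rintro ⟨h1, h2⟩
        exact ⟨h1, by simp only; rw [h1]; exact h2⟩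
    rw [hcard, hcard, ← finrank_exc_neg hq hR]
    ring
  have h2 : (finrank Ω (R.gr m) : ℝ) = ∑ i : {i // (p i).1 = m}, (1 : ℝ) := by
    rw [finrank_gr hR.isInternal.submodule_iSupIndep b (fun i => (p i).1)
      (fun i => (Submodule.mem_inf.1 (hb i)).1) m, Finset.sum_const, Finset.card_univ,
      Nat.card_eq_fintype_card]
    simp
  have h3 : (∑ i : {i // (p i).1 = m}, ((Coh.wtf q (p i.1).2 : ℝ) - (m : ℝ))) = 0 := by
    exact_mod_cast h1
  unfold sqW
  rw [finsum_mult hR hb m (fun α => (Coh.wtf q α : ℝ) ^ 2), weightMoment_eq hq hR hb, h2,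
    Finset.mul_sum, ← Finset.sum_sub_distrib]
  push_cast
  have h4 : ∀ i : {i // (p i).1 = m}, ((Coh.wtf q (p i.1).2 : ℝ) - (m : ℝ)) ^ 2 =
      ((Coh.wtf q (p i.1).2 : ℝ) ^ 2 - (m : ℝ) ^ 2 * 1) -
        2 * (m : ℝ) * ((Coh.wtf q (p i.1).2 : ℝ) - (m : ℝ)) := fun i => by ring
  rw [Finset.sum_congr rfl fun i _ => h4 i, Finset.sum_sub_distrib, ← Finset.mul_sum, h3, mul_zero,
    sub_zero]

/-- The weight moment is determined by the multiplicities and the Betti number. -/
lemma weightMoment_congr (hq : 1 < q) (hR : R.IsCoh q) (hR' : R'.IsCoh q) {m : ℕ}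
    (h : ∀ α, mult R m α = mult R' m α) : R.weightMoment q m = R'.weightMoment q m := by
  classical
  obtain ⟨I, _, b, p, hb⟩ := exists_basis hR
  obtain ⟨I', _, b', p', hb'⟩ := exists_basis hR'
  have h1 : (R.weightMoment q m : ℝ) = (R'.weightMoment q m : ℝ) := by
    have e1 := finsum_mult hR hb m (fun α => ((Coh.wtf q α : ℝ) - m) ^ 2)
    have e2 := finsum_mult hR' hb' m (fun α => ((Coh.wtf q α : ℝ) - m) ^ 2)
    rw [finsum_congr fun α => by rw [h α]] at e1
    rw [weightMoment_eq hq hR hb, weightMoment_eq hq hR' hb']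
    push_cast
    rw [← e1, ← e2]
  exact_mod_cast h1

/-- The alternating sums of the multiplicities of the eigenvalues of Frobenius in the degrees
`j ≤ k` are the same. -/
def SameAlternating (R R' : Coh.{v, w} Ω) (k : ℕ) : Prop :=
  ∀ α : Ω, ∑ j ∈ Finset.range (k + 1), (-1 : ℤ) ^ j * (mult R j α : ℤ) =
    ∑ j ∈ Finset.range (k + 1), (-1 : ℤ) ^ j * (mult R' j α : ℤ)

lemma alt_sqW_eq (hR : R.IsCoh q) (k : ℕ) :
    ∑ j ∈ Finset.range (k + 1), (-1 : ℝ) ^ j * sqW R q j =
      ∑ᶠ α : Ω, ((Coh.wtf q α : ℝ) ^ 2) *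
        ((∑ j ∈ Finset.range (k + 1), (-1 : ℤ) ^ j * (mult R j α : ℤ) : ℤ) : ℝ) := by
  classical
  have hfin : ∀ j, (Function.support fun α : Ω => ((Coh.wtf q α : ℝ) ^ 2) * (mult R j α : ℝ)).Finite :=
    fun j => (finite_mult hR j).subset fun α hα h0 => hα (by
      simp only
      rw [h0]
      simp)
  have h1 : ∀ α : Ω, ((Coh.wtf q α : ℝ) ^ 2) *
      ((∑ j ∈ Finset.range (k + 1), (-1 : ℤ) ^ j * (mult R j α : ℤ) : ℤ) : ℝ) =
      ∑ j ∈ Finset.range (k + 1), (-1 : ℝ) ^ j * (((Coh.wtf q α : ℝ) ^ 2) * (mult R j α : ℝ)) := by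
    intro α
    push_cast
    rw [Finset.mul_sum]
    exact Finset.sum_congr rfl fun j _ => by ring
  rw [finsum_congr h1, finsum_sum_comm]
  · refine Finset.sum_congr rfl fun j _ => ?_
    unfold sqW
    rw [mul_finsum]
  · intro j _
    exact (hfin j).subset fun α hα h0 => hα (by
      simp only at h0 ⊢
      rw [h0, mul_zero])

/-- The alternating sum of the weight moments. -/
theorem alt_weightMoment (hq : 1 < q) (hR : R.IsCoh q) (hR' : R'.IsCoh q) {k : ℕ}
    (hb : ∀ j ≤ k, finrank Ω (R.gr j) = finrank Ω (R'.gr j)) (h : SameAlternating R R' k) :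
    ∑ j ∈ Finset.range (k + 1), (-1 : ℤ) ^ j * R.weightMoment q j =
      ∑ j ∈ Finset.range (k + 1), (-1 : ℤ) ^ j * R'.weightMoment q j := by
  have h1 : ∑ j ∈ Finset.range (k + 1), (-1 : ℝ) ^ j * sqW R q j =
      ∑ j ∈ Finset.range (k + 1), (-1 : ℝ) ^ j * sqW R' q j := by
    rw [alt_sqW_eq hR, alt_sqW_eq hR']
    exact finsum_congr fun α => by rw [h α]
  have h2 : ∀ j ∈ Finset.range (k + 1), (-1 : ℝ) ^ j * (R.weightMoment q j : ℝ) =
      (-1 : ℝ) ^ j * sqW R q j -
        (-1 : ℝ) ^ j * ((j : ℝ) ^ 2 * (finrank Ω (R'.gr j) : ℝ)) := by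
    intro j hj
    rw [weightMoment_sqW hq hR, hb j (by have := Finset.mem_range.1 hj; omega)]
    ring
  have h3 : ∀ j ∈ Finset.range (k + 1), (-1 : ℝ) ^ j * (R'.weightMoment q j : ℝ) =
      (-1 : ℝ) ^ j * sqW R' q j -
        (-1 : ℝ) ^ j * ((j : ℝ) ^ 2 * (finrank Ω (R'.gr j) : ℝ)) := by
    intro j hj
    rw [weightMoment_sqW hq hR']
    ring
  have h4 : ∑ j ∈ Finset.range (k + 1), (-1 : ℝ) ^ j * (R.weightMoment q j : ℝ) =
      ∑ j ∈ Finset.range (k + 1), (-1 : ℝ) ^ j * (R'.weightMoment q j : ℝ) := by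
    rw [Finset.sum_congr rfl h2, Finset.sum_congr rfl h3, Finset.sum_sub_distrib,
      Finset.sum_sub_distrib, h1]
  exact_mod_cast h4

end Pool.Agent.V8H91.ML
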